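import Pool.Agent.Y142.SS.Stm
import Pool.Agent.Y614.ZD.Badd

set_option autoImplicit false

/-!
Task SSV of project Y142-SS: a subspace which is stable under an open subgroup of a group of
similitudes has no isotropic part, if the group contains an element with separable characteristic
polynomial all of whose factors are stable under the duality of the roots.
-/

open Matrix Polynomial Filter Topology
open Pool.Agent.Y142.ZO Pool.Agent.Y142.ZI Pool.Agent.Y142.ZD

namespace Pool.Agent.Y312.SS

section lin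
variable {F V : Type} [Field F] [Infinite F] [AddCommGroup V] [Module F V]
  [FiniteDimensional F V]

/-- a separable polynomial divides every polynomial which vanishes at all its roots -/
theorem dvd_of_roots (R T : F[X]) (hR0 : R ≠ 0) (hsep : R.Separable)
    (h : ∀ y : AlgebraicClosure F, aeval y R = 0 → aeval y T = 0) : R ∣ T := by
  rw [← map_dvd_map' (algebraMap F (AlgebraicClosure F))]
  by_cases hT0 : T.map (algebraMap F (AlgebraicClosure F)) = 0
  · rw [hT0]; exact dvd_zero _
  have hR0' : R.map (algebraMap F (AlgebraicClosure F)) ≠ 0 := by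
    rwa [Ne, Polynomial.map_eq_zero]
  apply Splits.dvd_of_roots_le_roots (IsAlgClosed.splits _) hR0'
  rw [Multiset.le_iff_subset (nodup_roots hsep.map)]
  intro y hy
  rw [mem_roots hR0', IsRoot.def, eval_map_algebraMap] at hy
  rw [mem_roots hT0, IsRoot.def, eval_map_algebraMap]
  exact h y hy

/-- an isotropic stable subspace is orthogonal to everything -/
theorem core (b : LinearMap.BilinForm F V) (f : Module.End F V) (q : F)
    (hf : Function.Injective f) (hq : ∀ x y, b (f x) (f y) = q * b x y)
    (I : Submodule F V) (hI : I ≤ I.comap f) (hII : ∀ u ∈ I, ∀ v ∈ I, b u v = 0)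
    (hsep : f.charpoly.Separable)
    (h0 : ∀ y : AlgebraicClosure F, aeval y f.charpoly = 0 → y ≠ 0)
    (hroot : ∀ R : F[X], R ∣ f.charpoly → ∀ y : AlgebraicClosure F, aeval y R = 0 →
      aeval (algebraMap F (AlgebraicClosure F) q / y) R = 0) :
    ∀ u ∈ I, ∀ v, b u v = 0 := by
  have hRS := Pool.Agent.W522.C.charpoly_eq_mul f I hI
  set R := (f.restrict hI).charpoly with hR
  set S := (I.mapQ I f hI).charpoly with hS
  have hRm : R.Monic := LinearMap.charpoly_monic _
  have hRd : R ∣ f.charpoly := hRS ▸ dvd_mul_right _ _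
  have hRsep : R.Separable := hsep.of_dvd hRd
  have hcop : IsCoprime R S := by
    rw [hRS] at hsep
    exact hsep.isCoprime
  obtain ⟨a, c, hac⟩ := hcop
  set T : F[X] := ∑ i ∈ Finset.range (R.natDegree + 1),
    C (R.coeff i * q ^ i) * X ^ (R.natDegree - i) with hT
  have hRT : R ∣ T := by
    apply dvd_of_roots R T hRm.ne_zero hRsep
    intro y hy
    have hy0 : y ≠ 0 := by
      apply h0
      rw [hRS, map_mul, hy, zero_mul]
    have h1 := hroot R hRd y hy
    rw [aeval_eq_sum_range] at h1
    rw [hT, map_sum]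
    have h2 : ∀ i ∈ Finset.range (R.natDegree + 1),
        aeval y (C (R.coeff i * q ^ i) * X ^ (R.natDegree - i)) =
        y ^ R.natDegree *
          (R.coeff i • (algebraMap F (AlgebraicClosure F) q / y) ^ i) := by
      intro i hi
      have hi' : i ≤ R.natDegree := Nat.lt_succ_iff.mp (Finset.mem_range.mp hi)
      rw [map_mul, aeval_C, map_pow, aeval_X, Algebra.smul_def, map_mul, map_pow, div_pow]
      have h3 : y ^ R.natDegree = y ^ (R.natDegree - i) * y ^ i := by
        rw [← pow_add, Nat.sub_add_cancel hi']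
      rw [h3]
      field_simp
    rw [Finset.sum_congr rfl h2, ← Finset.mul_sum, h1, mul_zero]
  have hres : ∀ (P : F[X]) (u : V) (hu : u ∈ I),
      aeval f P u = ((aeval (f.restrict hI) P ⟨u, hu⟩ : I) : V) := by
    intro P u hu
    induction P using Polynomial.induction_on' with
    | add p r hp hr => rw [map_add, map_add, LinearMap.add_apply, LinearMap.add_apply, hp, hr]; rfl
    | monomial n x =>
      rw [aeval_monomial, aeval_monomial, Module.algebraMap_end_eq_smul_id,
        Module.algebraMap_end_eq_smul_id]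
      have h4 : ∀ n : ℕ, (f ^ n) u = (((f.restrict hI) ^ n) ⟨u, hu⟩ : I) := by
        intro n
        induction n with
        | zero => rfl
        | succ n ih =>
          rw [pow_succ', pow_succ', Module.End.mul_apply, Module.End.mul_apply, ih]; rfl
      show x • (f ^ n) u = _
      rw [h4]; rfl
  have hRI : ∀ u ∈ I, aeval f R u = 0 := by
    intro u hu
    rw [hres R u hu, hR, LinearMap.aeval_self_charpoly]; rfl
  have hTI : ∀ u ∈ I, aeval f T u = 0 := by
    intro u hu
    obtain ⟨P, hP⟩ := hRT
    rw [hP, mul_comm, map_mul, Module.End.mul_apply, hRI u hu, map_zero]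
  have hqi : ∀ (i : ℕ) (x y : V), b ((f ^ i) x) ((f ^ i) y) = q ^ i * b x y := by
    intro i
    induction i with
    | zero => intro x y; simp
    | succ i ih =>
      intro x y
      rw [pow_succ', Module.End.mul_apply, Module.End.mul_apply, hq, ih, pow_succ']; ring
  have hsurj : ∀ (d : ℕ), ∀ u ∈ I, ∃ u' ∈ I, (f ^ d) u' = u := by
    have hg : Function.Surjective (f.restrict hI) := by
      rw [← LinearMap.injective_iff_surjective]
      intro x y hxy
      apply Subtype.ext
      apply hf
      exact congrArg Subtype.val hxy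
    intro d
    induction d with
    | zero => intro u hu; exact ⟨u, hu, rfl⟩
    | succ d ih =>
      intro u hu
      obtain ⟨w, hw⟩ := hg ⟨u, hu⟩
      obtain ⟨u', hu', h⟩ := ih w.1 w.2
      refine ⟨u', hu', ?_⟩
      rw [pow_succ', Module.End.mul_apply, h]
      exact congrArg Subtype.val hw
  have hB : ∀ u ∈ I, ∀ y, b u (aeval f R y) = 0 := by
    intro u hu y
    obtain ⟨u', hu', rfl⟩ := hsurj R.natDegree u hu
    have h5 : b ((f ^ R.natDegree) u') (aeval f R y) = b (aeval f T u') y := by
      rw [aeval_eq_sum_range, LinearMap.sum_apply, map_sum, hT, map_sum, LinearMap.sum_apply,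
        map_sum, LinearMap.sum_apply]
      refine Finset.sum_congr rfl fun i hi => ?_
      have hi' : i ≤ R.natDegree := Nat.lt_succ_iff.mp (Finset.mem_range.mp hi)
      have h3 : f ^ R.natDegree = f ^ i * f ^ (R.natDegree - i) := by
        rw [← pow_add, Nat.add_sub_cancel' hi']
      rw [h3, Module.End.mul_apply, LinearMap.smul_apply, map_smul, hqi, map_mul, aeval_C, map_pow,
        aeval_X, Module.End.mul_apply, Module.algebraMap_end_apply, map_smul,
        LinearMap.smul_apply, smul_eq_mul, smul_eq_mul]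
      ring
    rw [h5, hTI u' hu', map_zero, LinearMap.zero_apply]
  have hSI : ∀ v, aeval f S v ∈ I := by
    intro v
    have h6 : ∀ P : F[X], I.mkQ (aeval f P v) = aeval (I.mapQ I f hI) P (I.mkQ v) := by
      intro P
      induction P using Polynomial.induction_on' with
      | add p r hp hr => rw [map_add, map_add, LinearMap.add_apply, LinearMap.add_apply, map_add,
          hp, hr]
      | monomial n x =>
        rw [aeval_monomial, aeval_monomial, Module.End.mul_apply, Module.End.mul_apply,
          Module.algebraMap_end_apply, Module.algebraMap_end_apply, map_smul]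
        congr 1
        induction n with
        | zero => rfl
        | succ n ih =>
          rw [pow_succ', pow_succ', Module.End.mul_apply, Module.End.mul_apply, ← ih]; rfl
    have h7 := h6 S
    rw [hS, LinearMap.aeval_self_charpoly, LinearMap.zero_apply, ← hS] at h7
    exact (Submodule.Quotient.mk_eq_zero I).mp h7
  intro u hu v
  have hv : v = aeval f R (aeval f a v) + aeval f c (aeval f S v) := by
    have h8 := congrArg (fun P => aeval f P v) hac
    simp only [map_add, map_mul, map_one, LinearMap.add_apply, Module.End.mul_apply,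
      Module.End.one_apply] at h8
    conv_lhs => rw [← h8]
    congr 1
    rw [← Module.End.mul_apply, ← Module.End.mul_apply, ← map_mul, ← map_mul, mul_comm]
  have hcS : aeval f c (aeval f S v) ∈ I :=
    Pool.Agent.Y379.ZI.aeval_mem f I hI c _ (hSI v)
  rw [hv, map_add, hB u hu, hII u hu _ hcS, add_zero]

end lin

theorem bil_sim {F : Type} [Field F] {N : ℕ} (J g : Matrix (Fin N) (Fin N) F) (c : F)
    (h : gᵀ * J * g = c • J) (x y : Fin N → F) :
    Matrix.toBilin' J (g *ᵥ x) (g *ᵥ y) = c * Matrix.toBilin' J x y := by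
  rw [Matrix.toBilin'_apply', Matrix.toBilin'_apply']
  have h1 : x ⬝ᵥ ((gᵀ * J * g) *ᵥ y) = g *ᵥ x ⬝ᵥ J *ᵥ (g *ᵥ y) := by
    rw [← mulVec_mulVec, ← mulVec_mulVec, dotProduct_mulVec x gᵀ, vecMul_transpose]
  rw [← h1, h, smul_mulVec, dotProduct_smul, smul_eq_mul]

/-- task SSV -/
theorem t : Pool.Agent.Y142.SS.S_SSV := by
  intro ℓ _ N G _ _ _ _ ρ _ J hJ hJ0 hsim σ q hσ hsep hdist hroot U W hU hUW
  set b : LinearMap.BilinForm ℚ_[ℓ] (Fin N → ℚ_[ℓ]) := Matrix.toBilin' J with hb
  have hrefl : b.IsRefl := by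
    have key : ∀ x y, b x y = 0 → b y x = 0 := by
      intro x y hxy
      rw [hb, Matrix.toBilin'_apply'] at hxy ⊢
      have h1 : y ⬝ᵥ J *ᵥ x = x ⬝ᵥ Jᵀ *ᵥ y := by
        rw [dotProduct_mulVec, ← mulVec_transpose, dotProduct_comm]
      rw [h1]
      rcases hJ with h | h
      · rw [h]; exact hxy
      · rw [h, neg_mulVec, dotProduct_neg, hxy, neg_zero]
    exact key
  -- the complement
  have hinv : ∀ g : G, ∀ x, ρ g *ᵥ (ρ g⁻¹ *ᵥ x) = x := by
    intro g x
    rw [mulVec_mulVec, ← map_mul, mul_inv_cancel, map_one, one_mulVec]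
  have hstab : ∀ g ∈ U, ∀ x ∈ b.orthogonal W, ρ g *ᵥ x ∈ b.orthogonal W := by
    intro g hg x hx w hw
    obtain ⟨c, hc⟩ := hsim g
    have h1 := hUW g⁻¹ (U.inv_mem hg) w hw
    have h2 := hx _ h1
    show b w (ρ g *ᵥ x) = 0
    rw [← hinv g w, hb, bil_sim J (ρ g) c hc, ← hb, h2, mul_zero]
  refine ⟨b.orthogonal W, hstab, ?_⟩
  rw [LinearMap.BilinForm.isCompl_orthogonal_iff_disjoint hrefl, disjoint_iff, eq_bot_iff]
  intro u hu
  rw [Submodule.mem_bot]
  -- the element
  set f : Module.End ℚ_[ℓ] (Fin N → ℚ_[ℓ]) := toLin' (ρ σ) with hf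
  have hfx : ∀ x, f x = ρ σ *ᵥ x := fun x => toLin'_apply _ _
  have hfc : f.charpoly = (ρ σ).charpoly := by
    rw [hf, Matrix.charpoly_toLin']
  obtain ⟨k, hk, hkU⟩ : ∃ k : ℕ, 0 < k ∧ σ ^ k ∈ U := by
    have : Finite (G ⧸ U) := U.quotient_finite_of_isOpen hU
    have hidx : U.index ≠ 0 := Subgroup.index_ne_zero_of_finite
    obtain ⟨n, hn, _, hmem⟩ := Subgroup.exists_pow_mem_of_index_ne_zero hidx σ
    exact ⟨n, hn, hmem⟩
  have hpow : ∀ x, (f ^ k) x = ρ (σ ^ k) *ᵥ x := by
    intro x
    rw [map_pow, hf, ← toLin'_pow, toLin'_apply]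
  obtain ⟨P, hP⟩ := Pool.Agent.Y614.ZD.exists_poly_sep _ (Matrix.charpoly_monic (ρ σ)) hsep k
    (fun x y hx hy hxy => hdist k x y hk hx hy hxy)
  rw [← hfc] at hP
  have hI : W ⊓ b.orthogonal W ≤ (W ⊓ b.orthogonal W).comap f := by
    apply Pool.Agent.Y379.ZI.stable_of_pow f (W ⊓ b.orthogonal W) k _ P hP
    intro w hw
    rw [hpow]
    exact ⟨hUW _ hkU w hw.1, hstab _ hkU w hw.2⟩
  have hfinj : Function.Injective f := by
    intro x y hxy
    rw [hfx, hfx] at hxy
    have h1 := congrArg (fun v => ρ σ⁻¹ *ᵥ v) hxy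
    simp only [mulVec_mulVec, ← map_mul, inv_mul_cancel, map_one, one_mulVec] at h1
    exact h1
  have h0 : ∀ y : AlgebraicClosure ℚ_[ℓ], aeval y f.charpoly = 0 → y ≠ 0 := by
    rintro y hy rfl
    rw [hfc, aeval_def, eval₂_at_zero] at hy
    have h1 : (ρ σ).charpoly.coeff 0 = 0 := by
      apply (algebraMap ℚ_[ℓ] (AlgebraicClosure ℚ_[ℓ])).injective
      rw [hy, map_zero]
    have h2 : (ρ σ).det * (ρ σ⁻¹).det = 1 := by
      rw [← det_mul, ← map_mul, mul_inv_cancel, map_one, det_one]
    rw [det_eq_sign_charpoly_coeff, h1, mul_zero, zero_mul] at h2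
    exact zero_ne_one h2
  have h := core b f q hfinj (fun x y => by rw [hfx, hfx, hb]; exact bil_sim J (ρ σ) q hσ x y)
    (W ⊓ b.orthogonal W) hI (fun u hu v hv => hv.2 u hu.1) (by rw [hfc]; exact hsep) h0
    (by rw [hfc]; exact hroot) u hu
  exact (LinearMap.BilinForm.nondegenerate_toBilin'_of_det_ne_zero' J hJ0).1 u h

end Pool.Agent.Y312.SS
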